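import Pool.Agent.helper4.HL.Spec

/-!
# Quantum cat maps at generic Planck mantissas: assembly of the final statement
-/

open scoped BigOperators ComplexOrder ComplexConjugate Topology

namespace Pool.Agent.HL

open Pool.Agent.helper86.CM Pool.Agent.QS Filter MeasureTheory

noncomputable section

theorem FIN (hCAT : CAT_stmt) (hGEN : GEN_stmt) (hNCF : NCF_stmt) (hEXI : EXI_stmt) :
    FIN_stmt := by
  intro A hA hev htr
  obtain ⟨B, hB, hBA⟩ := hCAT A hA hev htr
  filter_upwards [hGEN B A.trace hB] with c hc hc0 F
  exact ⟨fun h => hNCF A B hB hBA c F hc0 (hc hc0) h, fun h => hEXI A hA hev htr c F hc0 h⟩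

end

end Pool.Agent.HL
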