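import Pool.Agent.helper4.QS.Basic

/-!
# Quantum cat maps at generic Planck mantissas: definitions

`A` is a hyperbolic matrix of theta type in `SL(2, ℤ)` with trace `t > 2`, `λ = lam t` is its
larger eigenvalue. The Planck parameters `N_j` satisfy `N_j / λ^(k_j) → c`, `k_j → ∞`.
-/

open scoped BigOperators ComplexOrder

namespace Pool.Agent.HL

open Pool.Agent.helper86.CM Pool.Agent.QS

noncomputable section

/-- `F` is a limit of Wigner transforms of unit eigenvectors of quantizations of `A`, the Planck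
parameters being positive integers `N_j` with `N_j / λ^(k_j) → c`, `k_j → ∞`. -/
def IsMantissaLimit (A : Matrix (Fin 1 ⊕ Fin 1) (Fin 1 ⊕ Fin 1) ℤ) (c : ℝ) (F : Lat 1 → ℂ) :
    Prop :=
  ∃ (k N : ℕ → ℕ) (_ : ∀ j, NeZero (N j)) (W : ℕ → Lat 1 → ℂ),
    Filter.Tendsto k Filter.atTop Filter.atTop ∧
    Filter.Tendsto (fun j => (N j : ℝ) / lam A.trace ^ (k j)) Filter.atTop (nhds c) ∧
    (∀ j, W j ∈ WignerSet (TT (N := N j)) (act A 1)) ∧
    ∀ n, Filter.Tendsto (fun j => W j n) Filter.atTop (nhds (F n))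

/-- `F` is the Fourier transform of `(Lebesgue + ν) / 2`, `ν` an `A`-invariant probability
measure. -/
def IsHalf (A : Matrix (Fin 1 ⊕ Fin 1) (Fin 1 ⊕ Fin 1) ℤ) (F : Lat 1 → ℂ) : Prop :=
  ∃ ν : MeasureTheory.Measure (UnitAddTorus (Fin 1 ⊕ Fin 1)),
    MeasureTheory.IsProbabilityMeasure ν ∧
    (∀ n, ∫ y, chr (act A 1 n) y ∂ν = ∫ y, chr n y ∂ν) ∧
    ∀ n, F n = (if n = 0 then 1 / 2 else 0) + 1 / 2 * ∫ y, chr n y ∂ν

/-- The form `X · hh`. -/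
def hx (B : Lat 1 ≃ₗ[ℤ] Lat 1) (t : ℤ) (X : ℝ) (x y : PP) : ℝ := X * hh B t x y

theorem bil_hx (B : Lat 1 ≃ₗ[ℤ] Lat 1) (t : ℤ) (X : ℝ) : Bil (hx B t X) := by
  have hb := bil_hh B t
  refine ⟨fun x y z => ?_, fun x y z => ?_, fun x => ?_⟩
  · unfold hx
    rw [hb.addl]
    ring
  · unfold hx
    rw [hb.addr]
    ring
  · unfold hx
    rw [hb.self]
    ring

/-- States for the form `X · hh`, invariant under `B` and the exchange. -/
structure InvX (B : Lat 1 ≃ₗ[ℤ] Lat 1) (t : ℤ) (X : ℝ) (Φ : PP → ℂ) : Prop where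
  pd : PD (hx B t X) Φ
  one : Φ 0 = 1
  inv : ∀ x, Φ (BB B x) = Φ x
  swap : ∀ x : PP, Φ (x.2, x.1) = Φ x

/-- The block matrix of the function `Φ` for the form `X · hh`. -/
def GX' (B : Lat 1 ≃ₗ[ℤ] Lat 1) (t : ℤ) (X : ℝ) (Φ : PP → ℂ) (R : ℕ) (x y : PP) : ℂ :=
  ((box R).card : ℂ)⁻¹ * ee (-(hx B t X x y)) * Φ (x - y)

/-- Genericity of the number `X`: exponential sums along the powers of `λ` have mean zero. -/
def Gen (B : Lat 1 ≃ₗ[ℤ] Lat 1) (t : ℤ) (X : ℝ) : Prop :=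
  ∀ n m : Lat 1, n ≠ 0 → m ≠ 0 → ∀ d : ℕ, 1 ≤ d →
    Filter.Tendsto (fun l : ℕ => (l : ℂ)⁻¹ * ∑ s ∈ Finset.range l,
      ee (X * beta B t n m * ((lam t) ^ (s + d) - (lam t) ^ s))) Filter.atTop (nhds 0)

/-- The two-dimensional torus. -/
abbrev T2 := UnitAddTorus (Fin 1 ⊕ Fin 1)

/-- The inequality `2 |∫ p dμ|² ≤ ∫ |p|² dμ` for the trigonometric polynomials `p` without constant
term. -/
def Cen (μ : MeasureTheory.Measure T2) : Prop :=
  ∀ (S : Finset (Lat 1)) (p : Lat 1 → ℂ), (0 : Lat 1) ∉ S →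
    2 * ‖∑ n ∈ S, p n * ∫ y, chr n y ∂μ‖ ^ 2 ≤ ∫ y, ‖∑ n ∈ S, p n * chr n y‖ ^ 2 ∂μ

end

end Pool.Agent.HL
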