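import Pool.Agent.helper4.HL.Spec
import Pool.Agent.helper92.QS.PAIR

/-!
# Project hl, module PAIRQ: evaluation at two sites
-/

set_option autoImplicit false

open scoped BigOperators ComplexOrder ComplexConjugate Topology

namespace Pool.Agent.HL

open Pool.Agent.helper86.CM Pool.Agent.QS Filter

noncomputable section

theorem PAIRQ (hUNQ : UNQQ_stmt) (hPH : PHQ_stmt) (hPH0 : PH0Q_stmt) (hEV : EV_stmt) (hBOX : BOX_stmt)
    (hFACE : FACEQ_stmt) (hPRD : PRD_stmt) (hPDB : PDB_stmt) (hLUL : LUL_stmt) : PAIRQ_stmt := by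
  intro B t hc Q hQ
  obtain ⟨Cu, hCu1, hu⟩ := hUNQ B t hc Q hQ
  obtain ⟨Cp, hCp1, hp⟩ := hPH B t hc Q hQ
  obtain ⟨C0, hC01, h0⟩ := hPH0 B t hc Q hQ
  obtain ⟨⟨hlam, -, -⟩, -, hlu, -⟩ := hLUL t hc.lt
  have hpi := Real.pi_pos
  have hQ1 : (1 : ℝ) ≤ Q := by exact_mod_cast hQ
  have hQ0 : 0 ≤ lam t * (Q : ℝ) := mul_nonneg (by linarith) (by linarith)
  refine ⟨(2 + 10 * Cu + 2 * Real.pi * (2 * C0 + 24 * Cp)) + lam t * Q, ?_, ?_⟩
  · have : 0 ≤ 2 * Real.pi * (2 * C0 + 24 * Cp) := by positivity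
    linarith
  intro Φ hPD hΦ0 s J r R N E0 hs hJ hR hNe hCR1 hE0 hE0z i i' hii hi'J u u' huR hu'R
  have hR1 : (1 : ℝ) ≤ R := by exact_mod_cast hR
  have hR2 : (1 : ℝ) ≤ (R : ℝ) ^ 2 := by nlinarith
  have hCR : (2 + 10 * Cu + 2 * Real.pi * (2 * C0 + 24 * Cp)) * (R : ℝ) ^ 2 ≤ (lam t) ^ s := by
    refine le_trans ?_ hCR1
    exact mul_le_mul_of_nonneg_right (by linarith) (by positivity)
  have hCR0 : lam t * (Q : ℝ) ≤ (lam t) ^ s := by
    refine le_trans ?_ hCR1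
    have e1 : 0 ≤ 2 * Real.pi * (2 * C0 + 24 * Cp) := by positivity
    have e2 : lam t * (Q : ℝ) ≤ (2 + 10 * Cu + 2 * Real.pi * (2 * C0 + 24 * Cp)) + lam t * Q := by
      linarith
    have e3 : 0 ≤ (2 + 10 * Cu + 2 * Real.pi * (2 * C0 + 24 * Cp)) + lam t * (Q : ℝ) :=
      hQ0.trans e2
    nlinarith
  have hR0 : (0 : ℝ) < R := by linarith
  set q : ℝ := ((lam t)⁻¹) ^ s with hq
  have hlam0 : 0 < lam t := by linarith
  have hlinv0 : 0 < (lam t)⁻¹ := inv_pos.2 hlam0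
  have hlinv : (lam t)⁻¹ ≤ 1 / 2 := by
    rw [inv_le_comm₀ hlam0 (by norm_num)]
    linarith
  have hq0 : 0 < q := pow_pos hlinv0 _
  have hq1 : q ≤ 1 / 2 := by
    refine le_trans ?_ hlinv
    exact pow_le_of_le_one hlinv0.le (by linarith) (by omega)
  have hsJ : s + 1 ≤ s * J := by nlinarith
  have hNs : (lam t) ^ s ≤ (N : ℝ) := by
    have h1 := (hlu (s * J - 1)).1
    have h2 : s * J - 1 + 1 = s * J := by omega
    rw [h2, ← hNe] at h1
    push_cast at h1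
    have h3 : (lam t) ^ (2 * s - 1) ≤ (lam t) ^ (s * J - 1) :=
      pow_le_pow_right₀ (by linarith) (by nlinarith [Nat.mul_le_mul_left s hJ, Nat.sub_le_sub_right (show 2 * s ≤ s * J by nlinarith) 1])
    have h4 : (lam t) ^ s * (lam t) ^ s = lam t * (lam t) ^ (2 * s - 1) := by
      rw [← pow_add, ← pow_succ']
      congr 1
      omega
    have h5 : 0 < (lam t) ^ s := pow_pos hlam0 _
    have h6 : lam t * ((Q : ℝ) * (lam t) ^ s) ≤ lam t * ((Q : ℝ) * N) := by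
      calc lam t * ((Q : ℝ) * (lam t) ^ s) = (lam t * Q) * (lam t) ^ s := by ring
        _ ≤ (lam t) ^ s * (lam t) ^ s := mul_le_mul_of_nonneg_right hCR0 h5.le
        _ = lam t * (lam t) ^ (2 * s - 1) := h4
        _ ≤ lam t * ((Q : ℝ) * N) := mul_le_mul_of_nonneg_left (h3.trans h1) hlam0.le
    have h7 : (Q : ℝ) * (lam t) ^ s ≤ (Q : ℝ) * N := le_of_mul_le_mul_left h6 hlam0
    exact le_of_mul_le_mul_left h7 (by linarith)
  have hN0 : (0 : ℝ) < N := lt_of_lt_of_le (pow_pos hlam0 _) hNs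
  have hNq : 1 / (N : ℝ) ≤ q := by
    rw [hq, inv_pow, one_div]
    exact inv_anti₀ (pow_pos hlam0 _) hNs
  obtain ⟨hbox, -, -⟩ := hBOX
  set w : ℕ → PP := fun j => if j = i then u else if j = i' then u' else 0 with hw
  have hiJ : i < J := by omega
  have hne : i ≠ i' := by omega
  have hwR : ∀ j, ‖w j‖ ≤ R := by
    intro j
    show ‖(if j = i then u else if j = i' then u' else 0 : PP)‖ ≤ R
    split_ifs
    · exact huR
    · exact hu'R
    · rw [norm_zero]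
      exact hR0.le
  have hwsum : ∑ j ∈ Finset.range J, ‖w j‖ = ‖u‖ + ‖u'‖ :=
    PAIR_sum2 (fun _ x => ‖x‖) (fun _ => norm_zero) hiJ hi'J hne u u'
  have hwprod : ∏ j ∈ Finset.range J, Φ (w j) = Φ u * Φ u' := PAIR_prod2 Φ hΦ0 hiJ hi'J hne u u'
  have hwsite : ∑ j ∈ Finset.range J, site B s (s * J) r j (w j) =
      site B s (s * J) r i u + site B s (s * J) r i' u' :=
    PAIR_sum2 (fun j x => site B s (s * J) r j x) (fun j => map_zero _) hiJ hi'J hne u u'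
  have hCu : Cu * ((3 * (R : ℝ)) ^ 2 + 1) ≤ (lam t) ^ s := by
    refine le_trans ?_ hCR
    have e1 : 0 ≤ 2 * Real.pi * (2 * C0 + 24 * Cp) := by positivity
    have e2 : (1 : ℝ) ≤ (R : ℝ) ^ 2 := by nlinarith
    have e3 : 0 ≤ (2 + 2 * Real.pi * (2 * C0 + 24 * Cp)) * (R : ℝ) ^ 2 := by positivity
    nlinarith
  have hEVal := hEV (Lat 1) PP (hN N) (bil_hN N) (site B s (s * J) r) (box R) (GX' B t Q Φ R) E0
    (PAIR_Z N) (fun z hz => hE0z z hz) hE0 {g | ‖g‖ ≤ 3 * R} (by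
      show ‖(0 : PP)‖ ≤ 3 * R
      rw [norm_zero]
      positivity) J
    (fun g hg hgs => hu s J r N (3 * R) hs (by omega) (by positivity) hNe hCu g hg hgs) w (by
      intro j _ x hx y hy
      rw [hbox] at hx hy
      show ‖w j + y - x‖ ≤ 3 * R
      have e1 := norm_sub_le (w j + y) x
      have e2 := norm_add_le (w j) y
      have e3 := hwR j
      linarith)
  rw [hwsite] at hEVal
  rw [hEVal, ← hwprod]
  obtain ⟨hΦ1, -⟩ := hPDB PP (hx B t Q) (bil_hx B t Q) Φ hPD hΦ0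
  -- the single factors
  have hterm : ∀ j ∈ Finset.range J,
      ‖fac (hN N) (site B s (s * J) r j) (box R) (GX' B t Q Φ R) (w j)
        (∑ l ∈ Finset.range j, site B s (s * J) r l (w l)) - Φ (w j)‖ ≤
        2 * ‖w j‖ / R + 2 * Real.pi * (C0 * R * ‖w j‖ / N +
          3 * ∑ l ∈ Finset.range j, Cp * R * ‖w l‖ * (q ^ (j - l) + q ^ (J - (j - l)))) ∧
      ‖fac (hN N) (site B s (s * J) r j) (box R) (GX' B t Q Φ R) (w j)
        (∑ l ∈ Finset.range j, site B s (s * J) r l (w l))‖ ≤ 1 := by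
    intro j hj
    rw [Finset.mem_range] at hj
    refine hFACE B t Q Φ hPD hΦ0 (Lat 1) (hN N) (bil_hN N) (site B s (s * J) r j) R hR (w j)
      ((hbox R (w j)).2 (hwR j)) _ _ _ ?_ ?_
    · intro x hx
      rw [hbox] at hx
      refine (h0 s (s * J) r j N x (w j) (by omega) hNe).trans ?_
      refine div_le_div_of_nonneg_right ?_ hN0.le
      refine mul_le_mul_of_nonneg_right ?_ (norm_nonneg _)
      exact mul_le_mul_of_nonneg_left hx (by linarith)
    · intro x hx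
      rw [hbox] at hx
      rw [PAIR_hsum (bil_hN N)]
      refine PAIR_round j _ _ ?_
      intro l hl
      obtain ⟨z, hz⟩ := hp s J r l j N x (w l) hs hl hj hNe
      refine ⟨z, hz.trans ?_⟩
      rw [pow_mul, pow_mul, ← hq]
      refine mul_le_mul_of_nonneg_right ?_ (by positivity)
      refine mul_le_mul_of_nonneg_right ?_ (norm_nonneg _)
      exact mul_le_mul_of_nonneg_left hx (by linarith)
  refine (hPRD (Finset.range J) _ _ (fun j hj => (hterm j hj).2) (fun j _ => hΦ1 _)).trans ?_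
  refine (Finset.sum_le_sum fun j hj => (hterm j hj).1).trans ?_
  -- the total
  have s1 : ∑ j ∈ Finset.range J, 2 * ‖w j‖ / (R : ℝ) = 2 * ((‖u‖ + ‖u'‖) / R) := by
    rw [← hwsum, ← Finset.sum_div, ← Finset.mul_sum]
    ring
  have s2 : ∑ j ∈ Finset.range J, C0 * R * ‖w j‖ / (N : ℝ) = C0 * R * (‖u‖ + ‖u'‖) * (1 / N) := by
    rw [← hwsum, ← Finset.sum_div, ← Finset.mul_sum]
    ring
  have s3 := PAIR_dbl q hq0.le hq1 J (fun l => Cp * R * ‖w l‖) (fun l => by positivity)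
  have s4 : ∑ l ∈ Finset.range J, Cp * R * ‖w l‖ = Cp * R * (‖u‖ + ‖u'‖) := by
    rw [← hwsum, Finset.mul_sum]
  rw [s4] at s3
  have hS : ‖u‖ + ‖u'‖ ≤ 2 * R := by linarith
  have hS0 : 0 ≤ ‖u‖ + ‖u'‖ := by positivity
  have t2 : C0 * R * (‖u‖ + ‖u'‖) * (1 / N) ≤ 2 * C0 * ((R : ℝ) ^ 2 * q) := by
    calc C0 * R * (‖u‖ + ‖u'‖) * (1 / N) ≤ C0 * R * (2 * R) * q := by
          refine mul_le_mul ?_ hNq (by positivity) (by positivity)
          exact mul_le_mul_of_nonneg_left hS (by positivity)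
      _ = 2 * C0 * ((R : ℝ) ^ 2 * q) := by ring
  have t3 : Cp * R * (‖u‖ + ‖u'‖) * (4 * q) ≤ 8 * Cp * ((R : ℝ) ^ 2 * q) := by
    calc Cp * R * (‖u‖ + ‖u'‖) * (4 * q) ≤ Cp * R * (2 * R) * (4 * q) := by
          refine mul_le_mul_of_nonneg_right ?_ (by positivity)
          exact mul_le_mul_of_nonneg_left hS (by positivity)
      _ = 8 * Cp * ((R : ℝ) ^ 2 * q) := by ring
  rw [Finset.sum_add_distrib, s1, ← Finset.mul_sum, Finset.sum_add_distrib, s2, ← Finset.mul_sum]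
  have t4 : 0 ≤ (‖u‖ + ‖u'‖) / (R : ℝ) := by positivity
  have t5 : 0 ≤ (R : ℝ) ^ 2 * q := by positivity
  have t6 : C0 * R * (‖u‖ + ‖u'‖) * (1 / N) + 3 * ∑ j ∈ Finset.range J, ∑ l ∈ Finset.range j,
      Cp * R * ‖w l‖ * (q ^ (j - l) + q ^ (J - (j - l))) ≤ (2 * C0 + 24 * Cp) * ((R : ℝ) ^ 2 * q) := by
    have := s3.trans t3
    linarith
  have t7 := mul_le_mul_of_nonneg_left t6 (show 0 ≤ 2 * Real.pi by positivity)
  have t8 : 0 ≤ 10 * Cu + 2 * Real.pi * (2 * C0 + 24 * Cp) := by positivity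
  have t9 : 0 ≤ 2 + 10 * Cu := by positivity
  have t10 := mul_nonneg t8 t4
  have t11 := mul_nonneg t9 t5
  refine le_trans ?_ (mul_le_mul_of_nonneg_right (le_add_of_nonneg_right hQ0)
    (show 0 ≤ (‖u‖ + ‖u'‖) / (R : ℝ) + (R : ℝ) ^ 2 * q by positivity))
  nlinarith

end

end Pool.Agent.HL
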