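import Pool.Agent.helper4.HL.Spec

/-!
# Project hl: TIMQ, covariances at times
-/

open scoped BigOperators ComplexOrder ComplexConjugate Topology

namespace Pool.Agent.HL

open Pool.Agent.helper86.CM Pool.Agent.QS Filter

noncomputable section

theorem TIMQ_lam_ge {t : ℤ} (ht : 2 < t) : 1 ≤ lam t := by
  have h1 : (2 : ℝ) < (t : ℝ) := by exact_mod_cast ht
  have h2 : 0 ≤ Real.sqrt ((t : ℝ) ^ 2 - 4) := Real.sqrt_nonneg _
  unfold lam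
  linarith

theorem TIMQ_BB (B : Lat 1 ≃ₗ[ℤ] Lat 1) (x : PP) : BB B x = (pw B 1 x.1, pw B 1 x.2) := by
  rw [pw_one, pw_one]
  rfl

/-- Invariance under all integer powers. -/
theorem TIMQ_inv {B : Lat 1 ≃ₗ[ℤ] Lat 1} {t : ℤ} {X : ℝ} {Φ : PP → ℂ} (h : InvX B t X Φ) (e : ℤ) (x : PP) :
    Φ (pw B e x.1, pw B e x.2) = Φ x := by
  induction e using Int.induction_on generalizing x with
  | zero => simp
  | succ i ih =>
    have h1 := h.inv x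
    rw [TIMQ_BB] at h1
    rw [pw_add, pw_add]
    have h2 := ih (pw B 1 x.1, pw B 1 x.2)
    simp only at h2
    rw [h2, h1]
  | pred i ih =>
    have h1 := h.inv (pw B (-1) x.1, pw B (-1) x.2)
    rw [TIMQ_BB] at h1
    simp only [pw_pw_neg] at h1
    rw [sub_eq_add_neg, pw_add, pw_add]
    have h2 := ih (pw B (-1) x.1, pw B (-1) x.2)
    simp only at h2
    rw [h2, ← h1]

/-- The data of one frequency. -/
theorem TIMQ_one {B : Lat 1 ≃ₗ[ℤ] Lat 1} {t : ℤ} (hB : Cat B t) {C2 : ℝ} (hC2 : 1 ≤ C2)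
    (hN : ∀ (e : ℤ) (n : Lat 1), ‖pw B e n‖ ≤ C2 * (lam t) ^ e.natAbs * ‖n‖)
    {X : ℝ} {Φ : PP → ℂ} (h : InvX B t X Φ) (s J r0 : ℕ) (n : Lat 1) (e j r : ℕ) (he : e < 2)
    (hr : r < 2 * r0 + 1) :
    ∃ u : PP, ‖u‖ ≤ C2 * (lam t) ^ r0 * ‖n‖ ∧ Φ u = Φ (n, 0) ∧
      site B s (s * J) r0 j u = pw B ((e * (s * J) + s * j + r : ℕ) : ℤ) n := by
  have hl : 1 ≤ lam t := TIMQ_lam_ge hB.lt
  have hnb : ‖pw B ((r : ℤ) - r0) n‖ ≤ C2 * (lam t) ^ r0 * ‖n‖ := by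
    refine (hN _ n).trans ?_
    have h1 : ((r : ℤ) - r0).natAbs ≤ r0 := by omega
    have h2 : (lam t) ^ ((r : ℤ) - r0).natAbs ≤ (lam t) ^ r0 := pow_le_pow_right₀ hl h1
    have h3 : 0 ≤ ‖n‖ := norm_nonneg n
    have h4 : 0 ≤ C2 := by linarith
    gcongr
  have hΦ : Φ (pw B ((r : ℤ) - r0) n, 0) = Φ (n, 0) := by
    have h1 := TIMQ_inv h ((r : ℤ) - r0) (n, 0)
    simpa using h1
  have hnn : 0 ≤ C2 * (lam t) ^ r0 * ‖n‖ := (norm_nonneg _).trans hnb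
  interval_cases e
  · refine ⟨(pw B ((r : ℤ) - r0) n, 0), ?_, hΦ, ?_⟩
    · rw [Prod.norm_def]
      simp only [norm_zero]
      exact max_le hnb hnn
    · rw [site_apply]
      simp only [map_zero, add_zero]
      rw [← pw_add]
      congr 2
      push_cast
      ring
  · refine ⟨(0, pw B ((r : ℤ) - r0) n), ?_, ?_, ?_⟩
    · rw [Prod.norm_def]
      simp only [norm_zero]
      exact max_le hnn hnb
    · rw [← hΦ]
      exact h.swap (pw B ((r : ℤ) - r0) n, 0)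
    · rw [site_apply]
      simp only [zero_add]
      rw [← pw_add, ← pw_add]
      congr 2
      push_cast
      ring

theorem TIMQ (hCOV : COVQ_stmt) (hNRM : NRM_stmt) : TIMQ_stmt := by
  intro B t hB Q hQ
  obtain ⟨C1, hC1, hcov⟩ := hCOV B t hB Q hQ
  obtain ⟨C2, hC2, hnrm⟩ := hNRM B t hB
  have hl : 1 ≤ lam t := TIMQ_lam_ge hB.lt
  have hl0 : 0 < lam t := by linarith
  have hCge : C1 ≤ 2 * C1 * C2 := by nlinarith
  have hC2le : C2 ≤ 2 * C1 * C2 := by nlinarith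
  refine ⟨2 * C1 * C2, by nlinarith, ?_⟩
  intro Φ hΦ s J r0 R N _ hs hJ hR hN hCR
  have hR1 : (1 : ℝ) ≤ (R : ℝ) := by exact_mod_cast hR
  have hCR' : C1 * (R : ℝ) ^ 2 ≤ (lam t) ^ s := by
    refine le_trans ?_ hCR
    have : 0 ≤ (R : ℝ) ^ 2 := by positivity
    exact mul_le_mul_of_nonneg_right hCge this
  obtain ⟨m, w, hw, hcv⟩ := hcov Φ hΦ.pd hΦ.one s J r0 R N (by omega) hJ hR hN hCR'
  refine ⟨m, w, hw, ?_⟩
  intro n hn e e' j j' r r' he he' hj hj' hjj hr hr'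
  obtain ⟨u, hu1, hu2, hu3⟩ := TIMQ_one hB hC2 hnrm hΦ s J r0 n e j r he hr
  obtain ⟨u', hu1', hu2', hu3'⟩ := TIMQ_one hB hC2 hnrm hΦ s J r0 n e' j' r' he' hr'
  have hln : 0 ≤ (lam t) ^ r0 * ‖n‖ := by positivity
  have hb : C2 * (lam t) ^ r0 * ‖n‖ ≤ R := by
    refine le_trans ?_ hn
    rw [mul_assoc, mul_assoc (2 * C1 * C2)]
    exact mul_le_mul_of_nonneg_right hC2le hln
  have hmain := hcv j j' hj hj' hjj u u' (hu1.trans hb) (hu1'.trans hb)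
  rw [hu3, hu3', hu2, hu2'] at hmain
  refine hmain.trans ?_
  have h1 : (‖u‖ + ‖u'‖) / R ≤ 2 * C2 * ((lam t) ^ r0 * ‖n‖ / R) := by
    rw [← mul_div_assoc]
    apply div_le_div_of_nonneg_right _ (by linarith)
    have : 2 * C2 * ((lam t) ^ r0 * ‖n‖) = C2 * (lam t) ^ r0 * ‖n‖ + C2 * (lam t) ^ r0 * ‖n‖ := by
      ring
    rw [this]
    exact add_le_add hu1 hu1'
  have h2 : 0 ≤ (R : ℝ) ^ 2 * ((lam t)⁻¹) ^ s := by positivity
  have h3 : C1 * ((‖u‖ + ‖u'‖) / R) ≤ 2 * C1 * C2 * ((lam t) ^ r0 * ‖n‖ / R) := by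
    have := mul_le_mul_of_nonneg_left h1 (by linarith : 0 ≤ C1)
    linarith
  have h4 : C1 * ((R : ℝ) ^ 2 * ((lam t)⁻¹) ^ s) ≤ 2 * C1 * C2 * ((R : ℝ) ^ 2 * ((lam t)⁻¹) ^ s) :=
    mul_le_mul_of_nonneg_right hCge h2
  rw [mul_add, mul_add]
  exact add_le_add h3 h4

end

end Pool.Agent.HL
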