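import Pool.Agent.helper4.QS.Fin
import Pool.Agent.helper11.HL.PARQ
import Pool.Agent.helper21.HL.UDC
import Pool.Agent.helper24.HL.KOL
import Pool.Agent.helper24.HL.UDI
import Pool.Agent.helper24.HL.VDC
import Pool.Agent.helper25.HL.BNZ
import Pool.Agent.helper25.HL.NE2
import Pool.Agent.helper27.HL.MKC
import Pool.Agent.helper27.HL.ORT
import Pool.Agent.helper30.HL.UNQQ
import Pool.Agent.helper32.HL.EXI
import Pool.Agent.helper32.HL.STE
import Pool.Agent.helper4.HL.COVQ
import Pool.Agent.helper4.HL.Assemble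
import Pool.Agent.helper4.HL.PAIRQ
import Pool.Agent.helper4.HL.TIMQ
import Pool.Agent.helper43.HL.KIQ
import Pool.Agent.helper48.HL.DOM
import Pool.Agent.helper48.HL.SPL
import Pool.Agent.helper52.HL.PERQ
import Pool.Agent.helper6.HL.WIGQ
import Pool.Agent.helper66.HL.FACEQ
import Pool.Agent.helper7.HL.RKA
import Pool.Agent.helper71.HL.PH0Q
import Pool.Agent.helper77.HL.NEL
import Pool.Agent.helper77.HL.UDA
import Pool.Agent.helper79.HL.GEN
import Pool.Agent.helper79.HL.PHL
import Pool.Agent.helper79.HL.PHQ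
import Pool.Agent.helper90.HL.ERG
import Pool.Agent.helper91.HL.STA
import Pool.Agent.helper92.HL.BMP
import Pool.Agent.helper92.HL.IVM
import Pool.Agent.helper97.HL.LUV
import Pool.Agent.helper99.HL.NCF

/-!
# Quantum cat maps at generic Planck mantissas: all modules together
-/

namespace Pool.Agent.HL

open Pool.Agent.QS

theorem UDI_done : UDI_stmt := UDI

theorem UDA_done : UDA_stmt := UDA UDI_done

theorem UDC_done : UDC_stmt := UDC UDA_done

theorem BNZ_done : BNZ_stmt := BNZ QF0_all BET_all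

theorem GEN_done : GEN_stmt := GEN UDC_done BNZ_done

theorem NE2_done : NE2_stmt := NE2

theorem LUV_done : LUV_stmt := LUV LUA_all LUL_all

theorem PHL_done : PHL_stmt := PHL LUV_done

theorem NEL_done : NEL_stmt := NEL NE2_done SUB_all PDL_all PHL_done

theorem KOL_done : KOL_stmt := KOL

theorem VDC_done : VDC_stmt := VDC

theorem ORT_done : ORT_stmt := ORT KOL_done VDC_done BET_all PDB_all

theorem KIQ_done : KIQ_stmt := KIQ KOL_done ORT_done

theorem MKC_done : MKC_stmt := MKC

theorem BMP_done : BMP_stmt := BMP MKC_done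

theorem ERG_done : ERG_stmt := ERG LUL_all BET_all

theorem IVM_done : IVM_stmt := IVM

theorem DOM_done : DOM_stmt := DOM BMP_done ERG_done IVM_done

theorem SPL_done : SPL_stmt := SPL DOM_done BOC_all

theorem NCF_done : NCF_stmt := NCF NEL_done BOC_all KIQ_done SPL_done

theorem UNQQ_done : UNQQ_stmt := UNQQ UNQ_all

theorem PHQ_done : PHQ_stmt := PHQ PH_all

theorem PH0Q_done : PH0Q_stmt := PH0Q PH0_all

theorem FACEQ_done : FACEQ_stmt := FACEQ BOX_all PDB_all

theorem PAIRQ_done : PAIRQ_stmt := PAIRQ UNQQ_done PHQ_done PH0Q_done EV_all BOX_all FACEQ_done PRD_all PDB_all LUL_all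

theorem COVQ_done : COVQ_stmt := COVQ UNQQ_done PHQ_done EV_all BOX_all PDB_all LUL_all PAIRQ_done REPN_all REPA_all VST_all TR_all GRM_all

theorem TIMQ_done : TIMQ_stmt := TIMQ COVQ_done NRM_all

theorem RKA_done : RKA_stmt := RKA

theorem PARQ_done : PARQ_stmt := PARQ TIMQ_done VAR_all LUP_all LUL_all PDB_all REPN_all RKA_done

theorem PERQ_done : PERQ_stmt := PERQ DBL_all

theorem WIGQ_done : WIGQ_stmt := WIGQ PERQ_done EIG_all

theorem STE_done : STE_stmt := STE PARQ_done WIGQ_done

theorem STA_done : STA_stmt := STA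

theorem EXI_done : EXI_stmt := EXI CAT_all LUL_all LUV_done STE_done STA_done

theorem FIN_done : FIN_stmt := FIN CAT_all GEN_done NCF_done EXI_done

end Pool.Agent.HL
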