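import Pool.Agent.helper4.HL.Defs
import Pool.Agent.helper4.QS.Spec

/-!
# Quantum cat maps at generic Planck mantissas: statements of the modules

MP_07c750_an. Notation: `λ = lam t > 2`, `β = beta B t`, `pw B e = B^e`, `ee x = exp(2πi x)`.
Any statement of this file, and any statement of `Pool/Agent/helper4/QS/Spec.lean` (all proved),
may be used as a hypothesis of a module (no circles). `Q` is a positive natural number; the Planck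
parameters of the second half are `N = u_k / Q`.
-/

open scoped BigOperators ComplexOrder ComplexConjugate Topology

namespace Pool.Agent.HL

open Pool.Agent.helper86.CM Pool.Agent.QS Filter MeasureTheory

noncomputable section

/-! ## U: uniform distribution along powers -/

/-- UDI. `L²` bound. Expand the square: the diagonal gives `(b-a)/m`; for `s > t`,
`|∫_a^b ee((l^s - l^t) κ x) dx| ≤ 1/(π |κ| (l^s - l^t)) ≤ 2/(π |κ| l^s)` and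
`Σ_{s} s · 2/l^s` is bounded (`l ≥ 2`, `s ≤ 2^s`... e.g. `s / l^s ≤ s/2^s`, summable). -/
def UDI_stmt : Prop :=
  ∀ a b l κ : ℝ, a ≤ b → 2 ≤ l → κ ≠ 0 → ∃ C : ℝ, 0 ≤ C ∧ ∀ m : ℕ, 1 ≤ m →
    ∫ x in a..b, ‖(m : ℂ)⁻¹ * ∑ s ∈ Finset.range m, ee (l ^ s * κ * x)‖ ^ 2 ≤ C / m

/-- UDA. For almost every `x` the means `(1/m) Σ_{s<m} ee(l^s κ x)` tend to `0`. By UDI along
`m = j²` the integrals over `[-K, K]` are summable (`C/j²`), so for almost every `x` in `[-K, K]` the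
series of the squares converges (`lintegral_tsum`, or `ae` finiteness of an integrable sum), hence
the means along `j²` tend to `0`; for `j² ≤ m < (j+1)²` the mean changes by at most `2(2j+1)/j²`.
Countable union over `K`. -/
def UDA_stmt : Prop :=
  ∀ l κ : ℝ, 2 ≤ l → κ ≠ 0 → ∀ᵐ x : ℝ, Tendsto (fun m : ℕ =>
    (m : ℂ)⁻¹ * ∑ s ∈ Finset.range m, ee (l ^ s * κ * x)) atTop (𝓝 0)

/-- UDC. From `x` to `c = 1/(a x)`. The exceptional set of `c > 0` is contained in the image of a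
null set of `x > 0` under `x ↦ 1/(a x)`, which is differentiable on `(0, ∞)`
(`MeasureTheory.addHaar_image_eq_zero_of_differentiableOn_of_addHaar_eq_zero`), and countably many
`κ` are handled by `ae_ball_iff` (or `ae_all_iff`). -/
def UDC_stmt : Prop :=
  ∀ (l a : ℝ) (K : Set ℝ), 2 ≤ l → 0 < a → K.Countable → (∀ κ ∈ K, κ ≠ 0) →
    ∀ᵐ c : ℝ, 0 < c → ∀ κ ∈ K, Tendsto (fun m : ℕ =>
      (m : ℂ)⁻¹ * ∑ s ∈ Finset.range m, ee (l ^ s * κ * (a * c)⁻¹)) atTop (𝓝 0)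

/-- BNZ. `β(n, m) ≠ 0` for `n, m ≠ 0`. If `β(n, m) = 0`, the integers `x = ω(n, B m)`,
`y = ω(n, m)` satisfy `x = λ⁻¹ y`, so `x² - t x y + y² = 0` and QF0 (for `z = -x` or directly)
gives `x = y = 0`; then `n` is parallel to `m` and to `B m` (two dimensional), so `ω(m, B m) = 0`,
against BET. -/
def BNZ_stmt : Prop :=
  ∀ (B : Lat 1 ≃ₗ[ℤ] Lat 1) (t : ℤ), Cat B t → ∀ n m : Lat 1, n ≠ 0 → m ≠ 0 →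
    beta B t n m ≠ 0

/-- GEN. Almost every `c > 0` is generic. UDC with `a = λ - λ⁻¹` and
`K = {β(n, m) (λ^d - 1)}` (countable, nonzero by BNZ and `λ > 1`). -/
def GEN_stmt : Prop :=
  ∀ (B : Lat 1 ≃ₗ[ℤ] Lat 1) (t : ℤ), Cat B t →
    ∀ᵐ c : ℝ, 0 < c → Gen B t (((lam t) - (lam t)⁻¹) * c)⁻¹

/-! ## V: the limit state -/

/-- LUV. `u_k (λ - λ⁻¹) = λ^k - λ^(-k)`, and `ω(n, B^k m) = u_k β(n, m) + λ^(-k) ω(n, m)`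
(LUA: `B^k m = u_k B m - u_(k-1) m`, LUL: `u_(k-1) = λ⁻¹ u_k - λ^(-k)`; `k = 0` separately). -/
def LUV_stmt : Prop :=
  ∀ (B : Lat 1 ≃ₗ[ℤ] Lat 1) (t : ℤ), Cat B t →
    (∀ k : ℕ, (lu t k : ℝ) * (lam t - (lam t)⁻¹) = (lam t) ^ k - ((lam t)⁻¹) ^ k) ∧
    ∀ (k : ℕ) (n m : Lat 1), (omega n (pw B (k : ℤ) m) : ℝ) =
      (lu t k : ℝ) * beta B t n m + ((lam t)⁻¹) ^ k * (omega n m : ℝ)

/-- PHL. Convergence of the forms: `ω(x, y)/N → 0`, `u_k / N → X` by LUV. -/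
def PHL_stmt : Prop :=
  ∀ (B : Lat 1 ≃ₗ[ℤ] Lat 1) (t : ℤ), Cat B t → ∀ (k N : ℕ → ℕ) (c : ℝ), 0 < c →
    Tendsto k atTop atTop → Tendsto (fun j => (N j : ℝ) / lam t ^ (k j)) atTop (𝓝 c) →
    ∀ x y : PP, Tendsto (fun j => hN (N j) (x.1 + pw B (k j : ℤ) x.2) (y.1 + pw B (k j : ℤ) y.2))
      atTop (𝓝 (hx B t (((lam t) - (lam t)⁻¹) * c)⁻¹ x y))

/-- NE2. Copy of NE1 (Pool/Agent/helper78/QS/NE1.lean) without the condition on `N` and without the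
exchange; instead `Ψ(0, n) = ⟨ψ, TT(B^k n) ψ⟩ = W n` by the invariance. -/
def NE2_stmt : Prop :=
  ∀ (A : Matrix (Fin 1 ⊕ Fin 1) (Fin 1 ⊕ Fin 1) ℤ) (B : Lat 1 ≃ₗ[ℤ] Lat 1) (t : ℤ), Cat B t →
    (∀ n, B n = act A 1 n) → ∀ (k N : ℕ) [NeZero N],
    ∀ W ∈ WignerSet (TT (N := N)) (act A 1), ∃ Ψ : PP → ℂ,
    PD (fun x y => hN N (x.1 + pw B (k : ℤ) x.2) (y.1 + pw B (k : ℤ) y.2)) Ψ ∧ Ψ 0 = 1 ∧
    (∀ x, Ψ (BB B x) = Ψ x) ∧ (∀ n, Ψ (n, 0) = W n) ∧ (∀ n, Ψ (0, n) = W n) ∧ ∀ x, ‖Ψ x‖ ≤ 1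

/-- NEL. The limit state: NE2, SUB, PDL, PHL (compare Pool/Agent/helper87/QS/NEC.lean). -/
def NEL_stmt : Prop :=
  ∀ (A : Matrix (Fin 1 ⊕ Fin 1) (Fin 1 ⊕ Fin 1) ℤ) (B : Lat 1 ≃ₗ[ℤ] Lat 1), Cat B A.trace →
    (∀ n, B n = act A 1 n) → ∀ (c : ℝ) (F : Lat 1 → ℂ), 0 < c → IsMantissaLimit A c F →
    ∃ Φ : PP → ℂ, PD (hx B A.trace (((lam A.trace) - (lam A.trace)⁻¹) * c)⁻¹) Φ ∧ Φ 0 = 1 ∧
      (∀ x, Φ (BB B x) = Φ x) ∧ (∀ n, Φ (n, 0) = F n) ∧ ∀ n, Φ (0, n) = F n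

/-! ## W: orthogonality -/

/-- KOL. Vectors for a positive definite function on a finite set:
`Matrix.posSemidef_iff_eq_conjTranspose_mul_self` for the matrix indexed by `S` (transport from
`Fin m` by an equivalence; `Matrix.PosSemidef.submatrix`), `v x` = the column `x`. -/
def KOL_stmt : Prop :=
  ∀ (Γ : Type) [AddCommGroup Γ] (h : Γ → Γ → ℝ) (Φ : Γ → ℂ), PD h Φ → ∀ S : Finset Γ,
    ∃ (q : ℕ) (v : Γ → EuclideanSpace ℂ (Fin q)), ∀ x ∈ S, ∀ y ∈ S,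
      inner ℂ (v x) (v y) = ee (-(h x y)) * Φ (y - x)

/-- VDC. The inequality of van der Corput. With `a = (1/l) Σ_{s<l} w_s` and
`b = (1/l) Σ_{s<l} (1/M) Σ_{h<M} w_(s+h)`: `‖a - b‖ ≤ M/l`, both have norm `≤ 1`, so
`‖a‖² ≤ ‖b‖² + 2M/l`; `‖b‖² ≤ (1/l) Σ_s ‖(1/M) Σ_h w_(s+h)‖²`
`= (1/M²) Σ_{h,h'} (1/l) Σ_s ⟨w_(s+h), w_(s+h')⟩`; the terms `h = h'` give at most `1/M`, and for
`h ≠ h'` the mean over `s` differs by at most `2M/l` from the one for `(0, |h - h'|)`. -/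
def VDC_stmt : Prop :=
  ∀ (H : Type) [NormedAddCommGroup H] [InnerProductSpace ℂ H] (w : ℕ → H), (∀ s, ‖w s‖ ≤ 1) →
    ∀ l M : ℕ, 1 ≤ l → 1 ≤ M →
    ‖(l : ℂ)⁻¹ • ∑ s ∈ Finset.range l, w s‖ ^ 2 ≤ 1 / M + 4 * M / l +
      2 / M * ∑ d ∈ Finset.Ico 1 M, ‖(l : ℂ)⁻¹ * ∑ s ∈ Finset.range l, inner ℂ (w s) (w (s + d))‖

/-- ORT. Orthogonality in the mean. Put `X' = X β(n, m)`. `hx (n, 0) (0, B^s m) = X' λ^s / 2`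
(BET). For fixed `l, M` take the vectors `v` of KOL for the finite set of all `(0, -B^s m)`,
`s < l + M`, and `(-n, 0)`; `⟨v (0, -B^s m), v (-n, 0)⟩ = ee(X' λ^s / 2) Φ(-n, B^s m)`, so the mean
in the statement is `(1/l) Σ_s ee(-X' λ^s) ⟨v (0, -B^s m), v (-n, 0)⟩`
`= ⟨(1/l) Σ_s ee(X' λ^s) v (0, -B^s m), v (-n, 0)⟩`, at most the norm of the left vector. VDC for
`w_s = ee(X' λ^s) v (0, -B^s m)` (for `s ≥ l + M` put `w_s = 0`... or use that only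
`s < l + M` occur), where `⟨w_s, w_(s+d)⟩ = ee(X' (λ^(s+d) - λ^s)) Φ(0, m - B^d m)` by the
invariance, and `|Φ| ≤ 1` (PDB). Given `ε` choose `M`, then `l` large by `Gen`. -/
def ORT_stmt : Prop :=
  ∀ (B : Lat 1 ≃ₗ[ℤ] Lat 1) (t : ℤ), Cat B t → ∀ X : ℝ, Gen B t X → ∀ Φ : PP → ℂ,
    PD (hx B t X) Φ → Φ 0 = 1 → (∀ x, Φ (BB B x) = Φ x) → ∀ n m : Lat 1, n ≠ 0 → m ≠ 0 →
    Tendsto (fun l : ℕ => (l : ℂ)⁻¹ * ∑ s ∈ Finset.range l,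
      ee (-(hx B t X ((n, 0) : PP) ((0, pw B (s : ℤ) m) : PP))) * Φ ((-n, pw B (s : ℤ) m) : PP))
      atTop (𝓝 0)

/-- KIQ. The key inequality. For fixed `l` take the vectors `v` of KOL for the finite set of
`0`, `(n, 0)` (`n ∈ S`), `(0, B^s m)` (`m ∈ S`, `s < l`), and `x = Σ_n p_n v (n, 0)`,
`y = (1/l) Σ_s Σ_m p_m v (0, B^s m)`. Then `‖x‖² = Σ Σ conj(p_n) p_n' F(n' - n)`, `‖y‖ ≤ ‖x‖`
(triangle inequality, invariance, `Φ(0, n) = Φ(n, 0)`), `⟨v 0, x⟩ = ⟨v 0, y⟩ = Σ p_n F(n)` and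
`⟨x, y⟩ → 0` by ORT. `4 |Σ p_n F(n)|² = |⟨v 0, x + y⟩|² ≤ ‖x + y‖² ≤ 2 ‖x‖² + 2 |⟨x, y⟩|`. -/
def KIQ_stmt : Prop :=
  ∀ (B : Lat 1 ≃ₗ[ℤ] Lat 1) (t : ℤ), Cat B t → ∀ X : ℝ, Gen B t X → ∀ Φ : PP → ℂ,
    PD (hx B t X) Φ → Φ 0 = 1 → (∀ x, Φ (BB B x) = Φ x) → (∀ n, Φ (0, n) = Φ (n, 0)) →
    ∀ (S : Finset (Lat 1)) (p : Lat 1 → ℂ), (0 : Lat 1) ∉ S →
    2 * ‖∑ n ∈ S, p n * Φ (n, 0)‖ ^ 2 ≤
      (∑ n ∈ S, ∑ m ∈ S, conj (p n) * p m * Φ (m - n, 0)).re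

/-! ## M: measures -/

/-- MKC. The inequality for continuous functions: approximate `f` uniformly by a trigonometric
polynomial (`UnitAddTorus.span_mFourier_closure_eq_top`), subtract the constant term (which is the
integral against the volume: `∫ chr n = 0` for `n ≠ 0`, `ME_haar` or `mFourier` orthonormality). -/
def MKC_stmt : Prop :=
  ∀ μ : Measure T2, IsProbabilityMeasure μ → Cen μ → ∀ f : T2 → ℝ, Continuous f →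
    2 * (∫ y, f y ∂μ - ∫ y, f y) ^ 2 ≤ ∫ y, (f y - ∫ z, f z) ^ 2 ∂μ

/-- ERG. The ergodic theorem in `L²` for `|p|²`. With `D = {(n, n') ∈ S × S, n ≠ n'}` the difference
`G_l - Σ |p_n|²` is `(1/l) Σ_s Σ_D conj(p_n) p_n' chr(B^s (n' - n))`; by orthonormality its square
integral is `(1/l²)` times the sum over `(s, s')`, `D × D` of the products of coefficients with
`B^s d = B^s' d'`; for given `s, d, d'` (`d, d' ≠ 0`) there is at most one such `s'` (no periodic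
points: `B^e d = d`, `e ≠ 0` implies `d = 0`, e.g. from BET for `β(d, B^e d) = λ^e β(d, d)`). So
`C = (Σ_D |p_n| |p_n'|)²`. -/
def ERG_stmt : Prop :=
  ∀ (B : Lat 1 ≃ₗ[ℤ] Lat 1) (t : ℤ), Cat B t → ∀ (S : Finset (Lat 1)) (p : Lat 1 → ℂ),
    ∃ C : ℝ, 0 ≤ C ∧ ∀ l : ℕ, 1 ≤ l →
    ∫ y : T2, ((l : ℝ)⁻¹ * ∑ s ∈ Finset.range l, ‖∑ n ∈ S, p n * chr (pw B (s : ℤ) n) y‖ ^ 2 -
      ∑ n ∈ S, ‖p n‖ ^ 2) ^ 2 ≤ C / l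

/-- IVM. The integrals of `|p|²` along the orbit, for an invariant measure: expand the square, the
integrals are `∫ chr(B^s (n' - n)) dμ`. -/
def IVM_stmt : Prop :=
  ∀ (B : Lat 1 ≃ₗ[ℤ] Lat 1) (μ : Measure T2), IsProbabilityMeasure μ →
    (∀ n, ∫ y, chr (B n) y ∂μ = ∫ y, chr n y ∂μ) → ∀ (S : Finset (Lat 1)) (p : Lat 1 → ℂ) (s : ℕ),
    ∫ y, ‖∑ n ∈ S, p n * chr (pw B (s : ℤ) n) y‖ ^ 2 ∂μ = ∫ y, ‖∑ n ∈ S, p n * chr n y‖ ^ 2 ∂μ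

/-- BMP. The bump argument. Let `g ≥ 0` be continuous on the torus, `g0, δ, η > 0`,
`vol {|g - g0| ≥ δ/2} ≤ η` (from the `L²` bound by Chebyshev). With the continuous function
`f = φ(g)`, `0 ≤ φ ≤ 1`, `φ = 1` on `[g0 - δ/2, g0 + δ/2]`, `φ = 0` outside `(g0 - δ, g0 + δ)`:
`∫ f ≥ 1 - η`; put `a = ∫ f dμ`, `v = ∫ f`. MKC: `2 (a - v)² ≤ ∫ (f - v)² dμ`, and
`(f - v)² ≤ (1 - f) + 2 η` (`0 ≤ f ≤ 1`, `1 - η ≤ v ≤ 1`); so with `b = 1 - a`: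
`2 (b - η)² ≤ b + 2η` if `b ≥ η`, in any case `b ≤ 1/2 + 4 √η` for `0 ≤ η ≤ 1`.
Finally `∫ g dμ ≥ (g0 - δ) a`. -/
def BMP_stmt : Prop :=
  ∀ μ : Measure T2, IsProbabilityMeasure μ → Cen μ → ∀ g : T2 → ℝ, Continuous g → (∀ y, 0 ≤ g y) →
    ∀ g0 δ η : ℝ, 0 < δ → δ ≤ g0 → 0 ≤ η → η ≤ 1 → ∫ y, (g y - g0) ^ 2 ≤ η * (δ / 2) ^ 2 →
    (g0 - δ) * (1 / 2 - 4 * Real.sqrt η) ≤ ∫ y, g y ∂μ

/-- DOM. `μ` dominates one half of the Lebesgue measure. BMP with `g = G_l` (ERG, IVM), `g0 =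
Σ |p_n|²` (nothing to prove if it vanishes), first `l → ∞` for fixed `δ`, then `δ → 0`. -/
def DOM_stmt : Prop :=
  ∀ (B : Lat 1 ≃ₗ[ℤ] Lat 1) (t : ℤ), Cat B t → ∀ μ : Measure T2, IsProbabilityMeasure μ → Cen μ →
    (∀ n, ∫ y, chr (B n) y ∂μ = ∫ y, chr n y ∂μ) → ∀ (S : Finset (Lat 1)) (p : Lat 1 → ℂ),
    1 / 2 * ∑ n ∈ S, ‖p n‖ ^ 2 ≤ ∫ y, ‖∑ n ∈ S, p n * chr n y‖ ^ 2 ∂μ

/-- SPL. Splitting off one half of the Lebesgue measure: `2 F - [n = 0]` is positive definite, as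
its quadratic form at `(n_i), (c_i)` is `2 ∫ |Σ c_i chr(n_i)|² dμ - Σ_n |Σ_{n_i = n} c_i|²`
(DOM for the coefficients `p_n = Σ_{n_i = n} c_i`); BOC. -/
def SPL_stmt : Prop :=
  ∀ (B : Lat 1 ≃ₗ[ℤ] Lat 1) (t : ℤ), Cat B t → ∀ μ : Measure T2, IsProbabilityMeasure μ → Cen μ →
    (∀ n, ∫ y, chr (B n) y ∂μ = ∫ y, chr n y ∂μ) → ∃ ν : Measure T2, IsProbabilityMeasure ν ∧
    (∀ n, ∫ y, chr (B n) y ∂ν = ∫ y, chr n y ∂ν) ∧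
    ∀ n, ∫ y, chr n y ∂μ = (if n = 0 then 1 / 2 else 0) + 1 / 2 * ∫ y, chr n y ∂ν

/-- NCF. Necessity, for a generic `c`: NEL, BOC (for the function `F = Φ(·, 0)`, whose matrices are
those of `PD` on the pairs `(n, 0)`), KIQ gives `Cen`, SPL. -/
def NCF_stmt : Prop :=
  ∀ (A : Matrix (Fin 1 ⊕ Fin 1) (Fin 1 ⊕ Fin 1) ℤ) (B : Lat 1 ≃ₗ[ℤ] Lat 1), Cat B A.trace →
    (∀ n, B n = act A 1 n) → ∀ (c : ℝ) (F : Lat 1 → ℂ), 0 < c →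
    Gen B A.trace (((lam A.trace) - (lam A.trace)⁻¹) * c)⁻¹ → IsMantissaLimit A c F → IsHalf A F

/-! ## E: existence, `N = u_k / Q` -/

/-- PERQ. As PER (Pool/Agent/helper52/QS/PER.lean), for `Q N = u_k`. -/
def PERQ_stmt : Prop :=
  ∀ (B : Lat 1 ≃ₗ[ℤ] Lat 1) (t : ℤ), Cat B t → ∀ (Q k N : ℕ) [NeZero N],
    ((Q * N : ℕ) : ℤ) = lu t k → ∀ (x n : Lat 1) (v : St 1 N),
    TT (x + pw B ((2 * k : ℕ) : ℤ) n) v = TT (x + n) v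

/-- UNQQ. From UNQ for `Q N` and the points `Q g_j`. -/
def UNQQ_stmt : Prop :=
  ∀ (B : Lat 1 ≃ₗ[ℤ] Lat 1) (t : ℤ), Cat B t → ∀ Q : ℕ, 1 ≤ Q → ∃ C : ℝ, 1 ≤ C ∧
    ∀ (s J r N : ℕ) (R : ℝ), 1 ≤ s → 1 ≤ J → 0 ≤ R → ((Q * N : ℕ) : ℤ) = lu t (s * J) →
    C * (R ^ 2 + 1) ≤ (lam t) ^ s → ∀ g : ℕ → PP, (∀ j < J, ‖g j‖ ≤ R) →
    Dv N (∑ j ∈ Finset.range J, site B s (s * J) r j (g j)) → ∀ j < J, g j = 0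

/-- PHQ. From PH for `Q N`: `hN N = Q hN (Q N)`. -/
def PHQ_stmt : Prop :=
  ∀ (B : Lat 1 ≃ₗ[ℤ] Lat 1) (t : ℤ), Cat B t → ∀ Q : ℕ, 1 ≤ Q → ∃ C : ℝ, 1 ≤ C ∧
    ∀ (s J r i j N : ℕ) (x y : PP), 1 ≤ s → i < j → j < J → ((Q * N : ℕ) : ℤ) = lu t (s * J) →
    ∃ z : ℤ, |hN N (site B s (s * J) r j x) (site B s (s * J) r i y) - z| ≤
      C * ‖x‖ * ‖y‖ * (((lam t)⁻¹) ^ (s * (j - i)) + ((lam t)⁻¹) ^ (s * (J - (j - i))))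

/-- PH0Q. From PH0 for `Q N`. -/
def PH0Q_stmt : Prop :=
  ∀ (B : Lat 1 ≃ₗ[ℤ] Lat 1) (t : ℤ), Cat B t → ∀ Q : ℕ, 1 ≤ Q → ∃ C : ℝ, 1 ≤ C ∧
    ∀ (s k r j N : ℕ) (x y : PP), 1 ≤ k → ((Q * N : ℕ) : ℤ) = lu t k →
    |hN N (site B s k r j x) (site B s k r j y) - hx B t Q x y| ≤ C * ‖x‖ * ‖y‖ / N

/-- FACEQ. As FACE (Pool/Agent/helper71/QS/FACE.lean), for the form `X hh`. -/
def FACEQ_stmt : Prop :=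
  ∀ (B : Lat 1 ≃ₗ[ℤ] Lat 1) (t : ℤ) (X : ℝ) (Φ : PP → ℂ), PD (hx B t X) Φ → Φ 0 = 1 →
    ∀ (Γ : Type) [AddCommGroup Γ] (h : Γ → Γ → ℝ), Bil h → ∀ (ι : PP →+ Γ) (R : ℕ), 1 ≤ R →
    ∀ u ∈ box R, ∀ (v : Γ) (θ0 θ : ℝ),
    (∀ x ∈ box R, |h (ι x) (ι u) - hx B t X x u| ≤ θ0) →
    (∀ x ∈ box R, ∃ z : ℤ, |h (ι x) v - z| ≤ θ) →
    ‖fac h ι (box R) (GX' B t X Φ R) u v - Φ u‖ ≤ 2 * ‖u‖ / R + 2 * Real.pi * (θ0 + 3 * θ) ∧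
    ‖fac h ι (box R) (GX' B t X Φ R) u v‖ ≤ 1

/-- PAIRQ. As PAIR (Pool/Agent/helper92/QS/PAIR.lean), for `Q N = u_(s J)`. -/
def PAIRQ_stmt : Prop :=
  ∀ (B : Lat 1 ≃ₗ[ℤ] Lat 1) (t : ℤ), Cat B t → ∀ Q : ℕ, 1 ≤ Q → ∃ C : ℝ, 1 ≤ C ∧ ∀ Φ : PP → ℂ,
    PD (hx B t Q) Φ → Φ 0 = 1 → ∀ (s J r R N : ℕ) (E0 : Lat 1 → ℂ), 1 ≤ s → 2 ≤ J → 1 ≤ R →
    ((Q * N : ℕ) : ℤ) = lu t (s * J) → C * (R : ℝ) ^ 2 ≤ (lam t) ^ s → E0 0 = 1 →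
    (∀ z, ¬ Dv N z → E0 z = 0) → ∀ i i' : ℕ, i < i' → i' < J → ∀ u u' : PP, ‖u‖ ≤ R → ‖u'‖ ≤ R →
    ‖iterE (hN N) (site B s (s * J) r) (box R) (GX' B t Q Φ R) E0 J
      (site B s (s * J) r i u + site B s (s * J) r i' u') - Φ u * Φ u'‖ ≤
      C * ((‖u‖ + ‖u'‖) / R + (R : ℝ) ^ 2 * ((lam t)⁻¹) ^ s)

/-- COVQ. As COV (Pool/Agent/helper4/QS/COV.lean), for `Q N = u_(s J)`. -/
def COVQ_stmt : Prop :=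
  ∀ (B : Lat 1 ≃ₗ[ℤ] Lat 1) (t : ℤ), Cat B t → ∀ Q : ℕ, 1 ≤ Q → ∃ C : ℝ, 1 ≤ C ∧ ∀ Φ : PP → ℂ,
    PD (hx B t Q) Φ → Φ 0 = 1 → ∀ (s J r R N : ℕ) [NeZero N], 1 ≤ s → 2 ≤ J → 1 ≤ R →
    ((Q * N : ℕ) : ℤ) = lu t (s * J) → C * (R : ℝ) ^ 2 ≤ (lam t) ^ s →
    ∃ (m : ℕ) (w : Fin m → St 1 N), ∑ l, ‖w l‖ ^ 2 = 1 ∧
    ∀ i i' : ℕ, i < J → i' < J → i ≠ i' → ∀ u u' : PP, ‖u‖ ≤ R → ‖u'‖ ≤ R →
    ‖∑ l, inner ℂ (TT (site B s (s * J) r i u) (w l) - Φ u • w l)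
      (TT (site B s (s * J) r i' u') (w l) - Φ u' • w l)‖ ≤
      C * ((‖u‖ + ‖u'‖) / R + (R : ℝ) ^ 2 * ((lam t)⁻¹) ^ s)

/-- TIMQ. As TIM (Pool/Agent/helper59/QS/TIM.lean), for `Q N = u_(s J)`. -/
def TIMQ_stmt : Prop :=
  ∀ (B : Lat 1 ≃ₗ[ℤ] Lat 1) (t : ℤ), Cat B t → ∀ Q : ℕ, 1 ≤ Q → ∃ C : ℝ, 1 ≤ C ∧ ∀ Φ : PP → ℂ,
    InvX B t Q Φ → ∀ (s J r0 R N : ℕ) [NeZero N], 2 * r0 + 1 ≤ s → 2 ≤ J → 1 ≤ R →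
    ((Q * N : ℕ) : ℤ) = lu t (s * J) → C * (R : ℝ) ^ 2 ≤ (lam t) ^ s →
    ∃ (m : ℕ) (w : Fin m → St 1 N), ∑ l, ‖w l‖ ^ 2 = 1 ∧
    ∀ n : Lat 1, C * (lam t) ^ r0 * ‖n‖ ≤ R → ∀ e e' j j' r r' : ℕ, e < 2 → e' < 2 → j < J →
    j' < J → j ≠ j' → r < 2 * r0 + 1 → r' < 2 * r0 + 1 →
    ‖∑ l, inner ℂ (TT (pw B ((e * (s * J) + s * j + r : ℕ) : ℤ) n) (w l) - Φ (n, 0) • w l)
      (TT (pw B ((e' * (s * J) + s * j' + r' : ℕ) : ℤ) n) (w l) - Φ (n, 0) • w l)‖ ≤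
      C * ((lam t) ^ r0 * ‖n‖ / R + (R : ℝ) ^ 2 * ((lam t)⁻¹) ^ s)

/-- RKA. Rank of apparition: the pairs `(u_k, u_(k+1))` modulo `Q` are the orbit of `(0, 1)` under
an invertible map of the finite set `(ℤ/Q)²`, so it is periodic: `u_a = 0` modulo `Q` for some
`a ≥ 1`, and `u_(a j)` is a multiple of `u_a` (or take the period `a`, for which all `u_(a j)`
vanish modulo `Q`). -/
def RKA_stmt : Prop :=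
  ∀ (t : ℤ) (Q : ℕ), 1 ≤ Q → ∃ a : ℕ, 1 ≤ a ∧ ∀ j : ℕ, (Q : ℤ) ∣ lu t (a * j)

/-- PARQ. As PAR (Pool/Agent/helper97/QS/PAR.lean), with `J` a multiple of the number `a` of RKA, so
that `Q` divides `u_(s J)`. -/
def PARQ_stmt : Prop :=
  ∀ (B : Lat 1 ≃ₗ[ℤ] Lat 1) (t : ℤ), Cat B t → ∀ Q : ℕ, 1 ≤ Q → ∀ Φ : PP → ℂ, InvX B t Q Φ →
    ∀ (M K : ℕ) (δ : ℝ), 0 < δ → ∃ (k N : ℕ) (_ : NeZero N) (m : ℕ) (w : Fin m → St 1 N),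
    K ≤ k ∧ 1 ≤ k ∧ ((Q * N : ℕ) : ℤ) = lu t k ∧ ∑ l, ‖w l‖ ^ 2 = 1 ∧ ∀ n : Lat 1, ‖n‖ ≤ M →
    ∑ l, ‖((2 * k : ℕ) : ℂ)⁻¹ • (∑ i ∈ Finset.range (2 * k), TT (pw B (i : ℤ) n) (w l)) -
      Φ (n, 0) • w l‖ ^ 2 ≤ δ

/-- WIGQ. As WIG (Pool/Agent/helper78/QS/WIG.lean), with PERQ instead of PER. -/
def WIGQ_stmt : Prop :=
  ∀ A : Matrix (Fin 1 ⊕ Fin 1) (Fin 1 ⊕ Fin 1) ℤ, A ∈ Matrix.symplecticGroup (Fin 1) ℤ →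
    (∀ n : Lat 1, (2 : ℤ) ∣ qf (act A 1 n) - qf n) → ∀ (B : Lat 1 ≃ₗ[ℤ] Lat 1) (t : ℤ), Cat B t →
    (∀ n, B n = act A 1 n) → ∀ (Q k N : ℕ) [NeZero N], 1 ≤ k → ((Q * N : ℕ) : ℤ) = lu t k →
    ∀ (Fs : Finset (Lat 1)) (c : Lat 1 → ℂ) (ε : ℝ), 0 ≤ ε → ∀ (m : ℕ) (w : Fin m → St 1 N),
    ∑ l, ‖w l‖ ^ 2 = 1 →
    ∑ n ∈ Fs, ∑ l, ‖((2 * k : ℕ) : ℂ)⁻¹ • (∑ i ∈ Finset.range (2 * k),
      TT (pw B (i : ℤ) n) (w l)) - c n • w l‖ ^ 2 ≤ ε ^ 2 →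
    ∃ W ∈ WignerSet (TT (N := N)) (act A 1), ∀ n ∈ Fs, ‖W n - c n‖ ≤ ε

/-- STE. One step: for every `Q, K, j` there are `k ≥ K`, `N = u_k / Q` and a Wigner transform at `N`
within `1/(j+1)` of `Φ(n, 0)` for `‖n‖ ≤ j`. As `SUF_step` (Pool/Agent/helper92/QS/SUF.lean). -/
def STE_stmt : Prop :=
  ∀ A : Matrix (Fin 1 ⊕ Fin 1) (Fin 1 ⊕ Fin 1) ℤ, A ∈ Matrix.symplecticGroup (Fin 1) ℤ →
    (∀ n : Lat 1, (2 : ℤ) ∣ qf (act A 1 n) - qf n) → ∀ (B : Lat 1 ≃ₗ[ℤ] Lat 1) (t : ℤ), Cat B t →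
    (∀ n, B n = act A 1 n) → ∀ Q : ℕ, 1 ≤ Q → ∀ Φ : PP → ℂ, InvX B t Q Φ → ∀ K j : ℕ,
    ∃ (k N : ℕ) (_ : NeZero N) (W : Lat 1 → ℂ), K ≤ k ∧ ((Q * N : ℕ) : ℤ) = lu t k ∧
      W ∈ WignerSet (TT (N := N)) (act A 1) ∧
      ∀ n : Lat 1, ‖n‖ ≤ (j : ℝ) → ‖W n - Φ (n, 0)‖ ≤ 1 / ((j : ℝ) + 1)

/-- STA. The state `(ν ⊗ trace + trace ⊗ ν) / 2`. The quadratic form of
`E(n, m) = [m = 0] ∫ chr n dν` for the form `X hh` at `(z_i), (c_i)` is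
`Σ_m ∫ |Σ_{i : m_i = m} c_i ee(X β(n_i, m)/2) chr(n_i)|² dν`, up to the sign of the phase. -/
def STA_stmt : Prop :=
  ∀ (B : Lat 1 ≃ₗ[ℤ] Lat 1) (t : ℤ), Cat B t → ∀ (X : ℝ) (ν : Measure T2),
    IsProbabilityMeasure ν → (∀ n, ∫ y, chr (B n) y ∂ν = ∫ y, chr n y ∂ν) →
    InvX B t X fun z => 1 / 2 * (if z.2 = 0 then ∫ y, chr z.1 y ∂ν else 0) +
      1 / 2 * (if z.1 = 0 then ∫ y, chr z.2 y ∂ν else 0)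

/-- EXI. Existence for every `c > 0`. For every `j` put `Q_j = ⌊λ^j X⌋ + 1`, `X = ((λ - λ⁻¹) c)⁻¹`,
and take `k'_j ≥ j + K_j` of STE (STA) with `K_j` so large that `u_k' / λ^k'` is within `1/(j+1)`
relative error of `1/(λ - λ⁻¹)` (automatic from LUV: the relative error is `λ^(-2k')`), and
`k_j = k'_j - j`. Then `N_j / λ^(k_j) = λ^j u_k' / (λ^k' Q_j) → 1/((λ - λ⁻¹) X) = c`. -/
def EXI_stmt : Prop :=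
  ∀ A : Matrix (Fin 1 ⊕ Fin 1) (Fin 1 ⊕ Fin 1) ℤ, A ∈ Matrix.symplecticGroup (Fin 1) ℤ →
    (∀ n : Lat 1, (2 : ℤ) ∣ qf (act A 1 n) - qf n) → 2 < A.trace → ∀ (c : ℝ) (F : Lat 1 → ℂ),
    0 < c → IsHalf A F → IsMantissaLimit A c F

/-! ## Z: assembly -/

/-- The final statement. -/
def FIN_stmt : Prop :=
  ∀ A : Matrix (Fin 1 ⊕ Fin 1) (Fin 1 ⊕ Fin 1) ℤ, A ∈ Matrix.symplecticGroup (Fin 1) ℤ →
    (∀ n : Lat 1, (2 : ℤ) ∣ qf (act A 1 n) - qf n) → 2 < A.trace →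
    ∀ᵐ c : ℝ, 0 < c → ∀ F : Lat 1 → ℂ, IsMantissaLimit A c F ↔ IsHalf A F

end

end Pool.Agent.HL
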